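import Pool.Agent.Y728.RC.Se
import Pool.Agent.TH498.CO.Lim

/-! **The average order of the 2-Selmer group by the conductor** (helper728). -/

set_option autoImplicit false

namespace Pool.Agent.Y728.RC

open Finset Filter Topology Pool.Agent.H925R.Szpiro Pool.Agent.W307.RT Pool.Agent.W307.SE
open Pool.Agent.Y679.Cr (cs nu Gm)
open Pool.Agent.Y728.RC.Dn (Good Bdd Tp)
open Pool.Agent.TH841.SH.D (Sha)
open Pool.Agent.Y667.SX (Sel2H)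
open Pool.Agent.TH841.SH (Bd)

open scoped Classical in
theorem ncard_le_of_bd {c : ℤ × ℤ} (hD : 4 * c.1 ^ 3 + 27 * c.2 ^ 2 ≠ 0)
    (hT : HasT 2 (Sh c.1 c.2)) {n : ℝ} (h : Bd (Sh c.1 c.2) n) :
    ((SelR c.1 c.2).ncard : ℝ) ≤ 4 * n := by
  obtain ⟨-, -, h4⟩ := sel_eq hD hT
  have e : Nat.card {x : Sha (Sh c.1 c.2) // x + x = 0} =
      Nat.card {x : Pool.Agent.W262.SH.Sha (Sh c.1 c.2) // x + x = 0} :=
    Nat.card_congr ((Pool.Agent.TH841.SH.D.eSha (Sh c.1 c.2)).toEquiv.subtypeEquiv (fun x => by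
      show x + x = 0 ↔ (Pool.Agent.TH841.SH.D.eSha (Sh c.1 c.2)) x +
        (Pool.Agent.TH841.SH.D.eSha (Sh c.1 c.2)) x = 0
      rw [← map_add, EmbeddingLike.map_eq_zero_iff]))
  rw [e] at h4
  have h5 := h.2
  have h6 : ((SelR c.1 c.2).ncard : ℝ) = 4 * ((2 : ℝ) ^ Module.finrank ℤ
      (Sh c.1 c.2).toAffine.Point *
        (Nat.card {x : Pool.Agent.W262.SH.Sha (Sh c.1 c.2) // x + x = 0} : ℝ)) := by
    rw [← h4]
    push_cast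
    ring
  rw [h6]
  linarith

/-- the order of the 2-Selmer group is at least `4 * 2 ^ rank` -/
theorem four_le {c : ℤ × ℤ} (hD : 4 * c.1 ^ 3 + 27 * c.2 ^ 2 ≠ 0)
    (hT : HasT 2 (Sh c.1 c.2)) :
    4 * 2 ^ Module.finrank ℤ (Sh c.1 c.2).toAffine.Point ≤ (SelR c.1 c.2).ncard := by
  obtain ⟨-, h3, h4⟩ := sel_eq hD hT
  rw [← h4]
  have : 0 < Nat.card {x : Sha (Sh c.1 c.2) // x + x = 0} := by
    have : Nonempty {x : Sha (Sh c.1 c.2) // x + x = 0} := ⟨⟨0, add_zero 0⟩⟩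
    exact Nat.card_pos
  calc 4 * 2 ^ Module.finrank ℤ (Sh c.1 c.2).toAffine.Point
      = 2 ^ (Module.finrank ℤ (Sh c.1 c.2).toAffine.Point + 2) := by ring
    _ ≤ _ := Nat.le_mul_of_pos_right _ this

theorem sq_le_four (r : ℕ) : r ^ 2 ≤ 4 * 2 ^ r := by
  induction r with
  | zero => norm_num
  | succ r ih =>
    rcases Nat.lt_or_ge r 3 with h | h
    · interval_cases r <;> norm_num
    · have h1 : (r + 1) ^ 2 ≤ 2 * r ^ 2 := by nlinarith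
      calc (r + 1) ^ 2 ≤ 2 * r ^ 2 := h1
        _ ≤ 2 * (4 * 2 ^ r) := Nat.mul_le_mul_left _ ih
        _ = 4 * 2 ^ (r + 1) := by ring

theorem rank_le_sqrt {c : ℤ × ℤ} (hD : 4 * c.1 ^ 3 + 27 * c.2 ^ 2 ≠ 0)
    (hT : HasT 2 (Sh c.1 c.2)) :
    (Module.finrank ℤ (Sh c.1 c.2).toAffine.Point : ℝ) ≤
      ((SelR c.1 c.2).ncard : ℝ) ^ ((1 : ℝ) / 2) := by
  have h1 := (sq_le_four (Module.finrank ℤ (Sh c.1 c.2).toAffine.Point)).trans (four_le hD hT)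
  rw [← Real.sqrt_eq_rpow]
  apply Real.le_sqrt_of_sq_le
  exact_mod_cast h1

/-- **The average by the conductor.** -/
theorem avg {P : ℤ × ℤ → Prop} (hP : Good P)
    (hPT : ∀ c, P c → 4 * c.1 ^ 3 + 27 * c.2 ^ 2 ≠ 0 ∧ HasT 2 (Sh c.1 c.2)) {θ : ℝ} (hθ0 : 0 < θ)
    (hθ : θ < 2 / 3) : ∃ (C : ℝ) (Z0 : ℕ), 0 < C ∧ ∀ f : ℤ × ℤ → ℕ, Bdd f → ∀ Z : ℕ, Z0 ≤ Z →
    ∀ S : Finset (ℤ × ℤ), (S : Set (ℤ × ℤ)) = Gm P f Z →
    ∑ c ∈ S, ((SelR c.1 c.2).ncard : ℝ) ^ θ ≤ C * S.card := by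
  classical
  obtain ⟨η, C1, hη, hC1, htop⟩ := Pool.Agent.Y728.RC.Dn.Tp_le hP
  obtain ⟨C2, hC2, hsum⟩ := Pool.Agent.TH498.CO.curves_sum θ hθ0 hθ 3 (by norm_num)
  obtain ⟨c0, Z1, hc0, hlo⟩ := Pool.Agent.Y728.RC.Dn.Gm_ge hP
  obtain ⟨K0, hK0, hsel⟩ := sel_le
  obtain ⟨k, hk⟩ := exists_nat_gt (1 / (2 * η))
  have hkr : (0 : ℝ) < k := lt_trans (by positivity) hk
  have hk1 : 1 ≤ k := by exact_mod_cast hkr
  have hk2 : (1 : ℝ) / (2 * k) ≤ η := by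
    rw [div_lt_iff₀ (by positivity)] at hk
    rw [div_le_iff₀ (by positivity)]
    nlinarith
  obtain ⟨A, hA, hom⟩ := omega_pow hk1
  have hK00 : 0 < K0 := by linarith
  have hA0 : 0 < A := by linarith
  have hC20 : 0 < C2 := by linarith
  refine ⟨(4 ^ θ * C2 + C1 * (K0 * A)) / c0, max Z1 1, by positivity, fun f hf Z hZ S hS => ?_⟩
  have hZ1 : Z1 ≤ Z := (le_max_left _ _).trans hZ
  have hZ2 : 1 ≤ Z := (le_max_right _ _).trans hZ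
  have hZr : (1 : ℝ) ≤ Z := by exact_mod_cast hZ2
  have hmem : ∀ c ∈ S, c ∈ Gm P f Z := fun c hc => by rw [← hS]; exact mem_coe.2 hc
  -- the curves of small discriminant
  obtain ⟨S1, hS1⟩ : ∃ S1 : Finset (ℤ × ℤ), S1 = (S.filter fun c => c ∉ Tp).image nu := ⟨_, rfl⟩
  have hfam : ∀ q ∈ S1, IsMin q.1 q.2 ∧ FullS q.1 q.2 ∧ (condS q.1 q.2 : ℝ) ≤ Z ∧
      |((D q.1 q.2 : ℤ) : ℝ)| ≤ (Z : ℝ) ^ (3 : ℝ) := by
    intro q hq
    rw [hS1] at hq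
    obtain ⟨c, hc, rfl⟩ := mem_image.1 hq
    obtain ⟨hc1, hc2⟩ := mem_filter.1 hc
    have hg := hmem c hc1
    obtain ⟨o1, o2⟩ := hP.ok c hg.1
    have h4 : cs c ≤ Z := Pool.Agent.Y679.Cr.cs_le (hf c).1 hg.2
    refine ⟨o1, o2, ?_, ?_⟩
    · change ((cs c : ℕ) : ℝ) ≤ Z
      exact_mod_cast h4
    have h3 : |D (-c.1) (-c.2)| ≤ (cs c : ℤ) ^ 3 := not_lt.1 hc2
    have e : (3 : ℝ) = ((3 : ℕ) : ℝ) := by norm_num
    rw [e, Real.rpow_natCast]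
    have h5 : ((|D (-c.1) (-c.2)| : ℤ) : ℝ) ≤ ((cs c : ℕ) : ℝ) ^ 3 := by exact_mod_cast h3
    have h7 : ((cs c : ℕ) : ℝ) ^ 3 ≤ (Z : ℝ) ^ 3 :=
      pow_le_pow_left₀ (Nat.cast_nonneg _) (by exact_mod_cast h4) 3
    refine le_trans ?_ (h5.trans h7)
    push_cast
    exact le_rfl
  obtain ⟨n, hn, hns⟩ := hsum Z hZr S1 hfam
  have hp1 : ∑ c ∈ S.filter (fun c => c ∉ Tp), ((SelR c.1 c.2).ncard : ℝ) ^ θ ≤
      4 ^ θ * (C2 * (Z : ℝ) ^ ((2 : ℝ) / 3)) := by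
    have h1 : ∑ c ∈ S.filter (fun c => c ∉ Tp), ((SelR c.1 c.2).ncard : ℝ) ^ θ ≤
        ∑ c ∈ S.filter (fun c => c ∉ Tp), 4 ^ θ * n (nu c) ^ θ := by
      refine sum_le_sum fun c hc => ?_
      have hq : nu c ∈ S1 := by rw [hS1]; exact mem_image_of_mem _ hc
      have hb := hn _ hq
      have e1 : -(nu c).1 = c.1 := by unfold nu; simp
      have e2 : -(nu c).2 = c.2 := by unfold nu; simp
      rw [e1, e2] at hb
      obtain ⟨d1, d2⟩ := hPT c (hmem c (mem_filter.1 hc).1).1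
      have h2 := ncard_le_of_bd d1 d2 hb
      have h3 : 0 ≤ n (nu c) := zero_le_one.trans (Pool.Agent.TH498.CO.one_le_of_bd hb)
      rw [← Real.mul_rpow (by norm_num) h3]
      exact Real.rpow_le_rpow (Nat.cast_nonneg _) h2 hθ0.le
    refine h1.trans ?_
    rw [← mul_sum]
    refine mul_le_mul_of_nonneg_left ?_ (by positivity)
    refine le_trans (le_of_eq ?_) hns
    rw [hS1, sum_image (fun a _ b _ h => Pool.Agent.Y679.Cr.nu_inj h)]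
  -- the curves of large discriminant
  have hp2 : ∑ c ∈ S.filter (fun c => c ∈ Tp), ((SelR c.1 c.2).ncard : ℝ) ^ θ ≤
      C1 * (K0 * A) * (Z : ℝ) ^ ((2 : ℝ) / 3) := by
    have h1 : ∀ c ∈ S.filter (fun c => c ∈ Tp), ((SelR c.1 c.2).ncard : ℝ) ^ θ ≤
        K0 * A * (Z : ℝ) ^ η := by
      intro c hc
      have hg := hmem c (mem_filter.1 hc).1
      obtain ⟨d1, d2⟩ := hPT c hg.1
      have h2 := (hsel c d1 d2).2
      have h3 := hom (cs c) (Pool.Agent.Y679.Cr.cs_pos c).ne'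
      have h4 : ((cs c : ℕ) : ℝ) ≤ Z := by
        exact_mod_cast Pool.Agent.Y679.Cr.cs_le (hf c).1 hg.2
      have h5 : ((cs c : ℕ) : ℝ) ^ ((1 : ℝ) / (2 * k)) ≤ (Z : ℝ) ^ η :=
        (Real.rpow_le_rpow (Nat.cast_nonneg _) h4 (by positivity)).trans
          (Real.rpow_le_rpow_of_exponent_le hZr hk2)
      have h6 : ((SelR c.1 c.2).ncard : ℝ) ≤ K0 * A * (Z : ℝ) ^ η := by
        calc _ ≤ K0 * 4 ^ (cs c).primeFactors.card := h2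
          _ ≤ K0 * (A * ((cs c : ℕ) : ℝ) ^ ((1 : ℝ) / (2 * k))) :=
            mul_le_mul_of_nonneg_left h3 hK00.le
          _ ≤ K0 * (A * (Z : ℝ) ^ η) :=
            mul_le_mul_of_nonneg_left (mul_le_mul_of_nonneg_left h5 hA0.le) hK00.le
          _ = _ := by ring
      have h7 : 1 ≤ K0 * A * (Z : ℝ) ^ η := by
        have h8 : (1 : ℝ) ≤ (Z : ℝ) ^ η := Real.one_le_rpow hZr hη.le
        have h9 : 1 ≤ K0 * A := by nlinarith
        nlinarith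
      calc ((SelR c.1 c.2).ncard : ℝ) ^ θ ≤ (K0 * A * (Z : ℝ) ^ η) ^ θ :=
            Real.rpow_le_rpow (Nat.cast_nonneg _) h6 hθ0.le
        _ ≤ (K0 * A * (Z : ℝ) ^ η) ^ (1 : ℝ) :=
            Real.rpow_le_rpow_of_exponent_le h7 (by linarith)
        _ = _ := Real.rpow_one _
    have h2 : ((S.filter fun c => c ∈ Tp).card : ℝ) ≤ C1 * (Z : ℝ) ^ ((2 : ℝ) / 3 - η) := by
      refine le_trans (le_of_eq ?_) (htop f hf Z hZ2)
      rw [← Set.ncard_coe_finset]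
      congr 2
      rw [← hS]
      ext q
      simp
    have h3 := sum_le_card_nsmul _ _ _ h1
    rw [nsmul_eq_mul] at h3
    refine h3.trans ?_
    calc _ ≤ C1 * (Z : ℝ) ^ ((2 : ℝ) / 3 - η) * (K0 * A * (Z : ℝ) ^ η) :=
          mul_le_mul_of_nonneg_right h2 (by positivity)
      _ = C1 * (K0 * A) * ((Z : ℝ) ^ ((2 : ℝ) / 3 - η) * (Z : ℝ) ^ η) := by ring
      _ = C1 * (K0 * A) * (Z : ℝ) ^ ((2 : ℝ) / 3) := by
          rw [← Real.rpow_add (by linarith)]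
          congr 2
          ring
  have hlo' := hlo f hf Z hZ1
  rw [← hS, Set.ncard_coe_finset] at hlo'
  rw [← sum_filter_add_sum_filter_not S (fun c => c ∈ Tp), div_mul_eq_mul_div,
    le_div_iff₀ hc0]
  have h1 : (∑ c ∈ S.filter (fun c => c ∈ Tp), ((SelR c.1 c.2).ncard : ℝ) ^ θ +
      ∑ c ∈ S.filter (fun c => c ∉ Tp), ((SelR c.1 c.2).ncard : ℝ) ^ θ) ≤
      (4 ^ θ * C2 + C1 * (K0 * A)) * (Z : ℝ) ^ ((2 : ℝ) / 3) := by
    have e : (4 ^ θ * C2 + C1 * (K0 * A)) * (Z : ℝ) ^ ((2 : ℝ) / 3) =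
        4 ^ θ * (C2 * (Z : ℝ) ^ ((2 : ℝ) / 3)) + C1 * (K0 * A) * (Z : ℝ) ^ ((2 : ℝ) / 3) := by ring
    rw [e]
    linarith
  have hpos : 0 ≤ 4 ^ θ * C2 + C1 * (K0 * A) := by positivity
  calc _ ≤ (4 ^ θ * C2 + C1 * (K0 * A)) * (Z : ℝ) ^ ((2 : ℝ) / 3) * c0 :=
        mul_le_mul_of_nonneg_right h1 hc0.le
    _ = (4 ^ θ * C2 + C1 * (K0 * A)) * (c0 * (Z : ℝ) ^ ((2 : ℝ) / 3)) := by ring
    _ ≤ _ := mul_le_mul_of_nonneg_left hlo' hpos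

end Pool.Agent.Y728.RC
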