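import Pool.Agent.Y728.RC.Dn
import Pool.Agent.Y679.Cr.Conv
import Pool.Agent.W612.SE.Seld
import Pool.Agent.W405.SE.GoodP
import Pool.Agent.W407.SE.Ratp
import Pool.Agent.W597.SE.SELC
import Pool.Agent.TH344.DT.Fin
import Pool.Agent.W513.FK.Parf
import Pool.Agent.Y667.SX.Main

/-! **The order of the 2-Selmer group is bounded by the number of the bad primes** (helper728). -/

set_option autoImplicit false

namespace Pool.Agent.Y728.RC

open Finset Filter Topology Pool.Agent.H925R.Szpiro Pool.Agent.W307.RT Pool.Agent.W307.SE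
open Pool.Agent.Y679.Cr (cs)
open Pool.Agent.TH841.SH.D (Sha)
open Pool.Agent.Y667.SX (Sel2H)

theorem sel_le : ∃ K0 : ℝ, 1 ≤ K0 ∧ ∀ c : ℤ × ℤ, 4 * c.1 ^ 3 + 27 * c.2 ^ 2 ≠ 0 →
    HasT 2 (Sh c.1 c.2) →
    (SelR c.1 c.2).Finite ∧ ((SelR c.1 c.2).ncard : ℝ) ≤ K0 * 4 ^ (cs c).primeFactors.card := by
  classical
  have hseld : SELD :=
    Pool.Agent.W612.SE.seld_of (Pool.Agent.W405.SE.goodp_of Pool.Agent.W407.SE.ratp)
  have hselc : SELC := Pool.Agent.W597.SE.selc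
  obtain ⟨n0, hn0⟩ : ∃ n0 : ℕ, n0 = Pool.Agent.W262.RK.NL 1 (fun _ _ _ _ _ => True) := ⟨_, rfl⟩
  refine ⟨4 ^ 4 * ((n0 : ℝ) + 1), ?_, fun c hD hT => ?_⟩
  · have : (0 : ℝ) ≤ n0 := Nat.cast_nonneg _
    linarith
  obtain ⟨F, -, hF⟩ := Pool.Agent.W513.FK.parf
  obtain ⟨-, -, -, -, -, e1, e2, e3, he, -, -⟩ := hF c hD hT
  obtain ⟨A, B⟩ := c
  change 4 * A ^ 3 + 27 * B ^ 2 ≠ 0 at hD
  change ∀ x : ℤ, x ^ 3 + A * x + B = (x - e1) * (x - e2) * (x - e3) at he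
  have a0 := he 0
  have a1 := he 1
  have a2 := he (-1)
  have s : e3 = -e1 - e2 := by
    have : 2 * (e1 + e2 + e3) = 0 := by linear_combination a1 + a2 - 2 * a0
    linarith
  have hB : B = -(e1 * e2 * e3) := by linear_combination a0
  have hA : A = e1 * e2 + e1 * e3 + e2 * e3 := by
    rw [s] at a1 hB ⊢
    linear_combination a1 - hB
  have hdisc : 4 * A ^ 3 + 27 * B ^ 2 = -((e1 - e2) * (e1 - e3) * (e2 - e3)) ^ 2 := by
    rw [hA, hB, s]; ring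
  have h12 : e1 ≠ e2 := by
    intro h; apply hD; rw [hdisc, h]; ring
  have h13 : e1 ≠ e3 := by
    intro h; apply hD; rw [hdisc, h]; ring
  have h23 : e2 ≠ e3 := by
    intro h; apply hD; rw [hdisc, h]; ring
  obtain ⟨f1, f2⟩ := hseld 1 (fun _ _ _ _ _ => True) (e2 - e1) (e3 - e1)
    (sub_ne_zero.2 h12.symm) (sub_ne_zero.2 h13.symm) (fun h => h23 (by linarith)) odd_one
    squarefree_one (fun p hp h => absurd (Nat.dvd_one.1 h) hp.one_lt.ne')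
    (fun p hp h => absurd (Nat.dvd_one.1 h) hp.out.one_lt.ne')
  obtain ⟨g1, g2⟩ := hselc A B e1 e2 e3 (e2 - e1) (e3 - e1) 1 hD he one_ne_zero
    (by push_cast; ring) (by push_cast; ring) f1
  refine ⟨g1, ?_⟩
  have hcs : cs (A, B) ≠ 0 := (Pool.Agent.Y679.Cr.cs_pos _).ne'
  have hsub : ((2 * (e2 - e1) * (e3 - e1) * (e2 - e1 - (e3 - e1))).natAbs.primeFactors.filter
      (fun q => ¬ q ∣ 1)) ⊆ insert 2 (insert 3 (cs (A, B)).primeFactors) := by
    intro p hp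
    have hp' := (mem_filter.1 hp).1
    have hpp := Nat.prime_of_mem_primeFactors hp'
    have hpd := Nat.dvd_of_mem_primeFactors hp'
    have hpI : Prime (p : ℤ) := Nat.prime_iff_prime_int.1 hpp
    have hpd' : (p : ℤ) ∣ 2 * (e2 - e1) * (e3 - e1) * (e2 - e1 - (e3 - e1)) :=
      Int.natCast_dvd.2 hpd
    rw [mem_insert, mem_insert]
    by_cases h2 : p = 2
    · exact Or.inl h2
    by_cases h3 : p = 3
    · exact Or.inr (Or.inl h3)
    refine Or.inr (Or.inr ?_)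
    have h5 : 5 ≤ p := by
      by_contra hcon
      push Not at hcon
      have := hpp.two_le
      interval_cases p
      · exact h2 rfl
      · exact h3 rfl
      · exact absurd hpp (by decide)
    have hn2 : ¬ (p : ℤ) ∣ 2 := by
      intro h
      have := Int.le_of_dvd (by norm_num) h
      omega
    have hdD : (p : ℤ) ∣ D (-A) (-B) := by
      have e : D (-A) (-B) = ((e1 - e2) * (e1 - e3) * (e2 - e3)) ^ 2 := by
        rw [Pool.Agent.Y679.Cr.D_neg, hdisc]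
        ring
      rw [e]
      refine Dvd.dvd.pow ?_ two_ne_zero
      have e4 : 2 * (e2 - e1) * (e3 - e1) * (e2 - e1 - (e3 - e1)) =
          2 * ((e1 - e2) * (e1 - e3) * (e2 - e3)) := by ring
      rw [e4] at hpd'
      exact (hpI.dvd_or_dvd hpd').resolve_left hn2
    have hD0 : D (-A) (-B) ≠ 0 := by
      rw [Pool.Agent.Y679.Cr.D_neg]
      exact neg_ne_zero.2 hD
    have hmem : p ∈ (D (-A) (-B)).natAbs.primeFactors.filter (fun p => 5 ≤ p) := by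
      refine mem_filter.2 ⟨Nat.mem_primeFactors.2 ⟨hpp, ?_, Int.natAbs_ne_zero.2 hD0⟩, h5⟩
      exact Int.natCast_dvd.1 hdD
    have hdvd : p ∣ cs (A, B) := by
      unfold cs condS
      refine Dvd.dvd.trans ?_ (Finset.dvd_prod_of_mem _ hmem)
      split_ifs
      · exact Dvd.intro_left (p ^ 1) (by ring)
      · exact dvd_rfl
    exact Nat.mem_primeFactors.2 ⟨hpp, hdvd, hcs⟩
  have hcard : (((2 * (e2 - e1) * (e3 - e1) * (e2 - e1 - (e3 - e1))).natAbs.primeFactors.filter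
      (fun q => ¬ q ∣ 1)).card + 2) ≤ (cs (A, B)).primeFactors.card + 4 := by
    have h1 := card_le_card hsub
    have h2 := card_insert_le 2 (insert 3 (cs (A, B)).primeFactors)
    have h3 := card_insert_le 3 (cs (A, B)).primeFactors
    omega
  have h5 : (SelR A B).ncard ≤ 4 ^ ((cs (A, B)).primeFactors.card + 4) * n0 := by
    refine g2.trans (f2.trans ?_)
    rw [← hn0]
    exact Nat.mul_le_mul_right _ (Nat.pow_le_pow_right (by norm_num) hcard)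
  have h6 : ((SelR A B).ncard : ℝ) ≤ 4 ^ ((cs (A, B)).primeFactors.card + 4) * (n0 : ℝ) := by
    exact_mod_cast h5
  have h7 : (0 : ℝ) ≤ 4 ^ (cs (A, B)).primeFactors.card := by positivity
  change ((SelR A B).ncard : ℝ) ≤ _
  rw [pow_add] at h6
  nlinarith

theorem omega_pow {k : ℕ} (hk : 1 ≤ k) : ∃ A : ℝ, 1 ≤ A ∧ ∀ g : ℕ, g ≠ 0 →
    (4 : ℝ) ^ g.primeFactors.card ≤ A * (g : ℝ) ^ ((1 : ℝ) / (2 * k)) := by
  obtain ⟨A0, hA0⟩ : ∃ A0 : ℝ, A0 = ((4 ^ k : ℕ) : ℝ) ^ ((4 ^ k) ^ 2) := ⟨_, rfl⟩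
  have hA1 : 1 ≤ A0 := by
    rw [hA0]
    exact one_le_pow₀ (by exact_mod_cast Nat.one_le_pow k 4 (by norm_num))
  have hk0 : k ≠ 0 := by omega
  have hkr : (0 : ℝ) < k := by exact_mod_cast hk
  refine ⟨A0 ^ ((k : ℝ)⁻¹), Real.one_le_rpow hA1 (by positivity), fun g hg => ?_⟩
  have h := Pool.Agent.TH344.DT.FinP.omega_bound (4 ^ k) (Nat.one_le_pow k 4 (by norm_num)) g hg
  rw [← hA0] at h
  have e1 : (((4 ^ k : ℕ) : ℝ)) ^ g.primeFactors.card = ((4 : ℝ) ^ g.primeFactors.card) ^ k := by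
    push_cast
    rw [← pow_mul, ← pow_mul, mul_comm]
  rw [e1] at h
  have h2 : (((4 : ℝ) ^ g.primeFactors.card) ^ k) ^ ((k : ℝ)⁻¹) ≤
      (A0 * Real.sqrt g) ^ ((k : ℝ)⁻¹) :=
    Real.rpow_le_rpow (by positivity) h (by positivity)
  rw [Real.pow_rpow_inv_natCast (by positivity) hk0, Real.mul_rpow (by linarith)
    (Real.sqrt_nonneg _), Real.sqrt_eq_rpow, ← Real.rpow_mul (Nat.cast_nonneg _)] at h2
  have e2 : (1 : ℝ) / 2 * (k : ℝ)⁻¹ = 1 / (2 * k) := by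
    field_simp
  rwa [e2] at h2

/-- the three descriptions of the 2-Selmer group and the rank -/
theorem sel_eq {c : ℤ × ℤ} (hD : 4 * c.1 ^ 3 + 27 * c.2 ^ 2 ≠ 0) (hT : HasT 2 (Sh c.1 c.2)) :
    (Finite (Sel2H (Sh c.1 c.2)) ∧ Nat.card (Sel2H (Sh c.1 c.2)) = (SelR c.1 c.2).ncard) ∧
    Finite {x : Sha (Sh c.1 c.2) // x + x = 0} ∧
      2 ^ (Module.finrank ℤ (Sh c.1 c.2).toAffine.Point + 2) *
        Nat.card {x : Sha (Sh c.1 c.2) // x + x = 0} = (SelR c.1 c.2).ncard := by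
  obtain ⟨K0, hK0, hsel⟩ := sel_le
  obtain ⟨hS, -⟩ := hsel c hD hT
  obtain ⟨F, -, hF⟩ := Pool.Agent.W513.FK.parf
  obtain ⟨-, -, -, -, -, e1, e2, e3, he, -, -⟩ := hF c hD hT
  obtain ⟨h1, h2⟩ := Pool.Agent.Z864.SX.SELH c.1 c.2 e1 e2 e3 hD he hS
  obtain ⟨h3, h4⟩ := Pool.Agent.Y214.SX.RKSHA c.1 c.2 e1 e2 e3 hD he h1
  obtain ⟨h5⟩ := Pool.Agent.Y833.SX.SEL2 c.1 c.2 e1 e2 e3 hD he
  exact ⟨⟨Finite.of_equiv _ h5.symm, (Nat.card_congr h5).trans h2⟩, h3, h4.trans h2⟩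

end Pool.Agent.Y728.RC
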